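import Pool.Agent.P8H33.ZB.Num
import Pool.Agent.P8H83.ZL.QI
import Pool.Agent.P8H83.ZL.GH
import Pool.Agent.P8H83.ZL.FR
import Pool.Agent.P8H83.ZL.GEN
import Pool.Agent.P8H83.ZL.KER
import Pool.Agent.P8H83.ZL.DIM
import Pool.Agent.P8H83.ZL.LEV
import Pool.Agent.P8H83.ZL.FLG

/-!
# MP_d483fb_an: lattices with many elements of prime order: all primes, forms of all signatures

Let `p` be a prime, `M` a closed connected smooth manifold of dimension `m`, `K` an algebraically
closed field of characteristic `p`, `b_i = dim H^i(M; K)`, and `rk = m` for `p = 2`,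
`rk = ⌊m / 2⌋` for odd `p`.

Let the coordinates `1, …, n` be divided into blocks and let `A` be a space of vectors in
`(ℤ/p)^n` which contains the differences `e_i - e_j`, `i` and `j` in one block.
`BG β A ⊂ (ℤ/p)^n ⋊ S_n` is the group generated by `A` and the 3-cycles of coordinates of one
block.  For `k ≥ 1` let `A_k` be the span of the differences `e_i - e_j`, `i` and `j` in one block
with at least `2 k + 2` elements, `l_k = (p - 1) dim (A / A_k) + 1`, and
`L(b) = min (b, min_k (l_k + (l_k + 1) ⌊b / k⌋))`.  Let `F` be a subspace with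
`rk + ∑ L(b_i) + dim F ≤ dim A`.  We prove that for all homomorphisms `BG β A → Γ → Diff(M)` a
vector in `A` and not in `F` acts trivially, and that no group `Γ` of matrices over a ring which
contains the monomial matrices `ζ^v σ` of `BG β A` (and has the normal subgroup property of the
lattices of higher rank) has an infinite image in `Diff(M)`, if `F` contains the constant vectors of
`A` or `ζ` is not central.

This applies to the arithmetic unitary groups of the diagonal forms `∑ x_i^* d_i x_i` of all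
signatures, the blocks being given by the equal `d_i`.  If the form has `s` different coefficients,
each of them at least `2 k + 2` times, and all `b_i < k`, then the conditions are as follows
(`δ = 1` if `p` divides `n`, and `δ = 0` otherwise).

* `p = 2`, `R = ℤ`: for `SO(N, q; ℤ)` it is `m + ∑ min (b_i, 2) + δ < N + q`.  The range of the
  conjecture is `m < N + q - 2`, the known range is `m < 2 q - 1` (`q < N`).
* `p = 3`, `R = ℤ[ω]`: for `SU(N, q; ℤ[ω])` it is `m + 2 ∑ min (b_i, 3) + 2 δ < 2 (N + q)`.  The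
  range of the conjecture is `m < 2 (N + q) - 3`, the known range is `m < 2 q - 1`.
* `p = 3`, `R` the Hurwitz order: for `Sp(N, q; R)` it is `m + 2 ∑ min (b_i, 5) ≤ 2 (N + q) + 1`.
  The range of the conjecture is `m < 4 (N + q) - 5`, the known range is `m < 2 q - 1`.

The Betti numbers may be large: for one block one has `L(b) ≤ 1 + 2 ⌊b / k⌋`, `k = ⌊(n - 2) / 2⌋`,
so that `∑ b_i` may be of order `n ^ 2`.  There is no condition on the Euler characteristic.
-/

set_option autoImplicit false

namespace Pool.Agent.Results.MP_d483fb_an.BlockTorsion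

open scoped Manifold ContDiff
open Pool.Agent.H185.ZM Pool.Agent.Helper381 Pool.Agent.P8H83.ZL Pool.Agent.P8H33.ZB Module

section defs

variable (E : Type) [NormedAddCommGroup E] [NormedSpace ℝ E] [FiniteDimensional ℝ E]
  (M : Type) [TopologicalSpace M] [ChartedSpace E M]

section block

variable {n p : ℕ} {I : Type} (β : Fin n → I) (A F : Submodule (ZMod p) (Fin n → ZMod p))

/-- For all homomorphisms `φ` from `BG β A` to a group `Γ` and `α : Γ → Diff(M)`, `α (φ v)` is
trivial for a vector `v` in `A` which is not in `F`. -/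
def Groups : Prop :=
  ∀ (Γ : Type) [Group Γ] (φ : BG β A →* Γ) (α : Γ → (M ≃ₘ^∞⟮𝓘(ℝ, E), 𝓘(ℝ, E)⟯ M)), IsHom α →
    ∃ g : BG β A, g.1.σ = 1 ∧ g.1.v ∈ A ∧ g.1.v ∉ F ∧ ∀ x, α (φ g) x = x

/-- Groups `Γ` of matrices over a ring `R` with an element `ζ ≠ 1`, `ζ ^ p = 1`, which contain the
monomial matrices given by the elements of `BG β A` on `n` of the coordinates. -/
def MatrixGroups : Prop :=
  ∀ (R : Type) [Ring R] (ζ : R), ζ ^ p = 1 → ζ ≠ 1 →
    ∀ (J : Type) [Fintype J] [DecidableEq J] (ι : Fin n ↪ J) (Γ : Type) [Group Γ]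
      (j : Γ →* (Matrix J J R)ˣ), Function.Injective j →
      (∀ g ∈ BG β A, ∃ h : Γ, ((j h : (Matrix J J R)ˣ) : Matrix J J R) = mt ζ ι g) →
      ∀ α : Γ → (M ≃ₘ^∞⟮𝓘(ℝ, E), 𝓘(ℝ, E)⟯ M), IsHom α →
      (∃ (v : Fin n → ZMod p) (h : Γ), v ∈ A ∧ v ∉ F ∧
        ((j h : (Matrix J J R)ˣ) : Matrix J J R) =
          Matrix.diagonal (fun x => ζ ^ (Function.extend ι v 0 x).val) ∧ ∀ x, α h x = x) ∧
      (((∀ v ∈ A, (∀ i l, v i = v l) → v ∈ F) ∨ ∃ r, ζ * r ≠ r * ζ) → ScalarNSP j →
        (Set.range α).Finite)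

end block

variable (K : Type) [Field K]

/-- Every value of the family `d` occurs in at least `2 k + 2` places, and all Betti numbers are
smaller than `k`. -/
def LargeBlocks {R : Type} {n : ℕ} (d : Fin n → R) : Prop :=
  ∃ k : ℕ, (∀ i, finrank K (SingularCohomology K M i) < k) ∧
    ∀ i, 2 * k + 2 ≤ Nat.card {l // d l = d i}

/-- The condition `rk + h + δ < n` for the group `SU d`, where `δ = 1` if `p` divides `n` and
`δ = 0` otherwise, and `h = ∑ L(b_i)`; or `h = ∑ min (b_i, (s - 1) (p - 1) + 1)` if the blocks are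
large, where `s` is the number of blocks. -/
def InRangeSU {R : Type} {n : ℕ} (d : Fin n → R) (p m : ℕ) : Prop :=
  rk p m + layerSumL K M (layB d (Z0 n p)) + (if p ∣ n then 1 else 0) < n ∨
  (LargeBlocks M K d ∧
    rk p m + layerSumL K M (fun b => min b ((Nat.card (Set.range d) - 1) * (p - 1) + 1)) +
      (if p ∣ n then 1 else 0) < n)

/-- The condition `rk + h ≤ n` for the group `UG d`, where `h = ∑ L(b_i)`; or
`h = ∑ min (b_i, s (p - 1) + 1)` if the blocks are large. -/
def InRangeU {R : Type} {n : ℕ} (d : Fin n → R) (p m : ℕ) : Prop :=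
  rk p m + layerSumL K M (layB d (⊤ : Submodule (ZMod p) (Fin n → ZMod p))) ≤ n ∨
  (LargeBlocks M K d ∧
    rk p m + layerSumL K M (fun b => min b (Nat.card (Set.range d) * (p - 1) + 1)) ≤ n)

/-- The special unitary groups of diagonal forms over commutative rings with involution. -/
def SpecialUnitaryGroups (p : ℕ) : Prop :=
  ∀ (R : Type) [CommRing R] [StarRing R] (ζ : R), ζ ^ p = 1 → ζ ≠ 1 →
    ∀ (n : ℕ) (d : Fin n → R), (∀ i, star ζ * d i * ζ = d i) → InRangeSU M K d p (finrank ℝ E) →
    ∀ α : SU d → (M ≃ₘ^∞⟮𝓘(ℝ, E), 𝓘(ℝ, E)⟯ M), IsHom α →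
      (∃ (v : Fin n → ZMod p) (h : SU d), (∃ i l, v i ≠ v l) ∧
        ((h : Matrix.SpecialLinearGroup (Fin n) R) : Matrix (Fin n) (Fin n) R) =
          Matrix.diagonal (fun i => ζ ^ (v i).val) ∧ ∀ x, α h x = x) ∧
      (ScalarNSP (Matrix.SpecialLinearGroup.toGL.comp (SU d).subtype) → (Set.range α).Finite)

/-- The unitary groups of diagonal forms over rings with involution, `ζ` not central. -/
def UnitaryGroups (p : ℕ) : Prop :=
  ∀ (R : Type) [Ring R] [StarRing R] (ζ : R), ζ ^ p = 1 → (∃ r, ζ * r ≠ r * ζ) →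
    ∀ (n : ℕ) (d : Fin n → R), (∀ i, star ζ * d i * ζ = d i) → InRangeU M K d p (finrank ℝ E) →
    ∀ α : UG d → (M ≃ₘ^∞⟮𝓘(ℝ, E), 𝓘(ℝ, E)⟯ M), IsHom α →
      (∃ (v : Fin n → ZMod p) (h : UG d), v ≠ 0 ∧
        ((h : (Matrix (Fin n) (Fin n) R)ˣ) : Matrix (Fin n) (Fin n) R) =
          Matrix.diagonal (fun i => ζ ^ (v i).val) ∧ ∀ x, α h x = x) ∧
      (ScalarNSP (UG d).subtype → (Set.range α).Finite)

end defs

variable {E : Type} [NormedAddCommGroup E] [NormedSpace ℝ E] [FiniteDimensional ℝ E]
  {M : Type} [TopologicalSpace M] [ChartedSpace E M] [IsManifold 𝓘(ℝ, E) ∞ M]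

theorem s_main2 : S_MAIN2 :=
  main2_proof (a_proof (gh_proof qi_proof) (fr_proof qi_proof)) gen_proof ker_proof dim_proof
    lev_proof flg_proof

/-- **Groups with many elements of prime order acting on closed manifolds.**  Let `M` be a closed
connected smooth manifold of dimension `m`, `p` a prime and `K` an algebraically closed field of
characteristic `p`. -/
theorem result [CompactSpace M] [T2Space M] [ConnectedSpace M] (p : ℕ) [Fact p.Prime]
    (K : Type) [Field K] [CharP K p] [IsAlgClosed K] :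
    (∀ (n : ℕ) (I : Type) (β : Fin n → I) (A F : Submodule (ZMod p) (Fin n → ZMod p)), Adm β A →
      InRangeA K M β A F (finrank ℝ E) → Groups E M β A F ∧ MatrixGroups E M β A F) ∧
    SpecialUnitaryGroups E M K p ∧ UnitaryGroups E M K p := by
  have hp : p.Prime := Fact.out
  refine ⟨?_, ?_, ?_⟩
  · intro n I β A F hA hr
    refine ⟨?_, ?_⟩
    · intro Γ _ φ α hα
      exact groupA s_main2 hp K hA hr φ hα
    · intro R _ ζ hζ hζ1 J _ _ ι Γ _ j hj hΓ α hα
      exact matA s_main2 hp K hA hr hζ hζ1 ι j hj (fun g hg => by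
        obtain ⟨h, hh⟩ := hΓ g hg
        exact ⟨h, Units.ext hh⟩) hα
  · intro R _ _ ζ hζ hζ1 n d hd hr α hα
    have hr' : rk p (finrank ℝ E) + layerSumL K M (layB d (Z0 n p)) + dl n p < n := by
      have hdl : dl n p = if p ∣ n then 1 else 0 := rfl
      rw [hdl]
      rcases hr with hr | ⟨⟨k, hb, hk⟩, hr⟩
      · exact hr
      · refine lt_of_le_of_lt ?_ hr
        have hn : 0 < n := by omega
        have hs : 0 < Nat.card (Set.range d) :=
          Nat.card_pos_iff.2 ⟨⟨⟨d ⟨0, hn⟩, ⟨0, hn⟩, rfl⟩⟩, inferInstance⟩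
        have h1 := layerSumL_mono K E M (layB d (Z0 n p))
          (fun b => min b ((Nat.card (Set.range d) - 1) * (p - 1) + 1)) layB_zero (by simp)
          (fun i => layB_le_min d (Z0 n p) (hb i) hk (by
            rw [finrank_S0 hn]
            omega))
        omega
    obtain ⟨⟨v, h, hv, hF, hh, hx⟩, h2⟩ := matA s_main2 hp K (adm_S0 d)
      (inRangeA_S0 K M d _ hr') hζ hζ1 (Function.Embedding.refl (Fin n))
      (Matrix.SpecialLinearGroup.toGL.comp (SU d).subtype)
      (Matrix.SpecialLinearGroup.toGL_injective.comp Subtype.val_injective)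
      (fun g hg => exists_SU d hζ hd hg) hα
    refine ⟨⟨v, h, ?_, ?_, hx⟩, h2 (Or.inl (fun v hv hc => const_mem v hv hc))⟩
    · by_contra hcon
      push Not at hcon
      exact hF (const_mem v hv hcon)
    · rw [ext0_refl] at hh
      exact hh
  · intro R _ _ ζ hζ hζr n d hd hr α hα
    have hζ1 : ζ ≠ 1 := by
      rintro rfl
      obtain ⟨r, hr⟩ := hζr
      exact hr (by rw [one_mul, mul_one])
    have hr' : rk p (finrank ℝ E) +
        layerSumL K M (layB d (⊤ : Submodule (ZMod p) (Fin n → ZMod p))) ≤ n := by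
      rcases hr with hr | ⟨⟨k, hb, hk⟩, hr⟩
      · exact hr
      · refine le_trans ?_ hr
        have h1 := layerSumL_mono K E M (layB d (⊤ : Submodule (ZMod p) (Fin n → ZMod p)))
          (fun b => min b (Nat.card (Set.range d) * (p - 1) + 1)) layB_zero (by simp)
          (fun i => layB_le_min d ⊤ (hb i) hk (by
            rw [finrank_top, Module.finrank_fin_fun]))
        omega
    obtain ⟨⟨v, h, hv, hF, hh, hx⟩, h2⟩ := matA s_main2 hp K (adm_top d)
      (inRangeA_top K M d _ hr') hζ hζ1 (Function.Embedding.refl (Fin n)) (UG d).subtype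
      Subtype.val_injective (fun g hg => ⟨⟨_, monoU_mem_UG d hζ hd hg⟩, rfl⟩) hα
    refine ⟨⟨v, h, ?_, ?_, hx⟩, h2 (Or.inr hζr)⟩
    · rintro rfl
      exact hF (Submodule.zero_mem _)
    · rw [ext0_refl] at hh
      exact hh

end Pool.Agent.Results.MP_d483fb_an.BlockTorsion
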