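import Pool.Agent.P8H83.ZE.Mat
import Pool.Agent.P8H83.ZE.ALG
import Pool.Agent.P8H53.ZE.Cyc
import Pool.Agent.P8H60.ZE.Fre
import Pool.Agent.P8H85.VAN.Van

/-!
# MP_d483fb_an: the full range of Zimmer's conjecture for lattices with a special finite subgroup

Let `l > 2` be a prime, `p` a prime which is a primitive root modulo `l`, and
`VR l p = (ℤ/p)^l_0 ⋊ ℤ/l` (vectors with coordinate sum zero and rotations of the coordinates).  Let
`M` be a closed connected smooth manifold of dimension `m` with `dim H^i(M; 𝔽_p) < l - 1` for all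
`i`.  If `m < l - 1` for `p = 2`, resp. `m < 2 (l - 1)` for `p` odd and the inverse `a` of `p`
modulo `l` satisfies `a < l / 2` or `m + 2 < 2 a`, then every smooth action of `VR l p` on `M` is
trivial on `(ℤ/p)^l_0`, and no group `Γ` which contains `VR l p` and has the normal subgroup
property of the lattices of higher rank has an infinite image in `Diff(M)`.

Examples.
* `p = 3`, `l ≡ 2` modulo `3` (`l = 5, 17, 29, 53, 89, …`): `SL_n(ℤ[ω])`, `n ≥ l`, a lattice in
  `SL_n(ℂ)`.  For `n = l` the range `m < 2 l - 2` is the full range `m < min(d(G), v(G))` of the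
  conjecture, while the known theorem gives `m < r(G) = l - 1`.  The bound is sharp, since `SL_l(ℂ)`
  acts on `ℂP^(l-1)`, and the statement about finite groups fails for `b_1 = l - 1`, since
  `(ℤ/p)^l_0 ⋊ ℤ/l` acts on the torus `T^(l-1)`.
* cocompact lattices: let `F` be a number field with exactly one complex place which contains
  `ℚ(ζ_p) ∩ ℝ`, and `L = F(ζ_p)`; the special unitary group over the integers of `L` of the form
  `l ⟨1⟩` for `L / F` is a lattice in `SL_l(ℂ)`, cocompact if `F` has a real place.  Every prime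
  `l ≥ 5` with a primitive root `a < l / 2` occurs with the primes `p` which are inverse to `a`
  modulo `l`, again in the full range `m < 2 l - 2`.
* `p = 2`: the groups `SO(f; ℤ)` of the forms `l ⟨1⟩ + f'`, e.g. `SO(l, q; ℤ)`, for which the known
  theorem gives `m < r(G) = 2 q - 1` and this theorem `m < l - 1`.

The proof: the element `u = ∑ ζ^(-i) (g_i - 1)`, `g_i = e_i - e_{i+1}`, of the group algebra of
`(ℤ/p)^l_0` over a field `K ∋ ζ_l` is an eigenvector of the rotation `T`.  If the fixed point set of
`(ℤ/p)^l_0` is empty, then the cellular cochains of `M` are free over `K[u] / (u^p)`, and `T` acts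
trivially on `H^*(M; K)`; the weights of `T` on the trivial layers of the hypercohomology of
`K[u] / (u^p)` are `ζ^(-j p)`, `ζ^(-(j p + 1))`, and they must cancel in the range.  So there is a
fixed point, and `(ℤ/p)^l_0` does not act effectively on a tangent space.

Packages of the proof were written by the seats helper53 (cyclotomic lemmas), helper60 (freeness),
helper61 (the weight argument), helper85 and helper87 (vanishing of cohomology above the dimension).
-/

set_option autoImplicit false

namespace Pool.Agent.Results.MP_d483fb_an.FullRangePrimitiveRoot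

open scoped Manifold ContDiff
open Pool.Agent.H185.ZM Pool.Agent.P8H83.ZL Pool.Agent.P8H83.ZE Module Polynomial
open Pool.Agent.Helper381

section defs

variable (E : Type) [NormedAddCommGroup E] [NormedSpace ℝ E] [FiniteDimensional ℝ E]
  (M : Type) [TopologicalSpace M] [ChartedSpace E M]

/-- The vectors act trivially in all smooth actions of `VR l p = (ℤ/p)^l_0 ⋊ ℤ/l` on `M`. -/
def FiniteGroup (l p : ℕ) : Prop :=
  ∀ a : VR l p → M → M, SmoothAction E a → ∀ v hv x, a (VR.vec v hv) x = x

/-- Groups `Γ` with a homomorphism `φ` from `VR l p`: every homomorphism `α : Γ → Diff(M)` is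
trivial on `φ (v)` for all vectors `v`, and `α` has finite image if `φ` is injective on the vectors
and every normal subgroup of `Γ` is central or of finite index. -/
def Groups (l p : ℕ) : Prop :=
  ∀ (Γ : Type) [Group Γ] (φ : VR l p →* Γ) (α : Γ → (M ≃ₘ^∞⟮𝓘(ℝ, E), 𝓘(ℝ, E)⟯ M)), IsHom α →
    (∀ v hv x, α (φ (VR.vec v hv)) x = x) ∧
    ((∀ v hv, φ (VR.vec v hv) = 1 → v = 0) → NormalSubgroupProperty Γ → (Set.range α).Finite)

/-- Groups `Γ` of matrices over a commutative ring `R` with an element `ζ ≠ 1`, `ζ ^ p = 1`, which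
contain the monomial matrices given by the elements of `VR l p` on `l` of the coordinates. -/
def MatrixGroups (l p : ℕ) [NeZero p] : Prop :=
  ∀ (R : Type) [CommRing R] (ζ : R) (hζ : ζ ^ p = 1), ζ ≠ 1 →
    ∀ (J : Type) [Fintype J] [DecidableEq J] (ι : Fin l ↪ J)
      (Γ : Subgroup (Matrix.SpecialLinearGroup J R)) (hΓ : ∀ g, VR.mono hζ ι g ∈ Γ)
      (α : Γ → (M ≃ₘ^∞⟮𝓘(ℝ, E), 𝓘(ℝ, E)⟯ M)), IsHom α →
      (∀ v hv x, α ⟨VR.mono hζ ι (VR.vec v hv), hΓ _⟩ x = x) ∧
      (NormalSubgroupProperty Γ → (Set.range α).Finite)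

/-- The elementary matrices with entries in `(1 - ζ) R` act trivially, for `SL_N(R)`, `N ≥ l`, and
all commutative rings `R` with an element `ζ ≠ 1`, `ζ ^ p = 1`. -/
def Elementary (l p : ℕ) : Prop :=
  ∀ (R : Type) [CommRing R] (ζ : R), ζ ^ p = 1 → ζ ≠ 1 → ∀ (N : ℕ), l ≤ N →
    ∀ α : Matrix.SpecialLinearGroup (Fin N) R → (M ≃ₘ^∞⟮𝓘(ℝ, E), 𝓘(ℝ, E)⟯ M), IsHom α →
      ∀ (c : R) (i j : Fin N) (hij : i ≠ j) (x : M), α (el hij ((1 - ζ) * c)) x = x

end defs

variable {E : Type} [NormedAddCommGroup E] [NormedSpace ℝ E] [FiniteDimensional ℝ E]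
  {M : Type} [TopologicalSpace M] [ChartedSpace E M] [IsManifold 𝓘(ℝ, E) ∞ M]

theorem s_triv : S_TRIV :=
  triv_proof (fix_proof alg_proof Pool.Agent.P8H60.ZE.fre_proof Pool.Agent.P8H53.ZE.chi_proof
    Pool.Agent.P8H53.ZE.sml_proof) van_proof Pool.Agent.P8H53.ZE.irr_proof

/-- **The full range of Zimmer's conjecture for lattices containing `(ℤ/p)^l_0 ⋊ ℤ/l`.**  Let `M`
be a closed connected smooth manifold of dimension `m`, `l > 2` a prime, `p` a prime which is a
primitive root modulo `l` and `dim H^i(M; 𝔽_p) < l - 1` for all `i`.  If `m` is in the range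
`InR p l m`, then the vectors act trivially in all smooth actions of `(ℤ/p)^l_0 ⋊ ℤ/l`, and of
groups and matrix groups containing it.  The range is `m < l - 1` for `p = 2` and `m < 2 (l - 1)`
for `p = 3` and `l ≡ 2` modulo `3`. -/
theorem result [CompactSpace M] [T2Space M] [ConnectedSpace M] (p l : ℕ) [Fact p.Prime]
    (hl : l.Prime) (hl2 : 2 < l) (hpr : orderOf (p : ZMod l) = l - 1)
    (hb : ∀ i, finrank (ZMod p) (SingularCohomology (ZMod p) M i) < l - 1) :
    (InR p l (finrank ℝ E) →
      FiniteGroup E M l p ∧ Groups E M l p ∧ MatrixGroups E M l p ∧ Elementary E M l p) ∧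
    (p = 2 → finrank ℝ E < l - 1 → InR p l (finrank ℝ E)) ∧
    (p = 3 → l % 3 = 2 → finrank ℝ E < 2 * (l - 1) → InR p l (finrank ℝ E)) := by
  have hp : p.Prime := Fact.out
  have hpl : p ≠ l := by
    rintro rfl
    have h1 : orderOf ((p : ℕ) : ZMod p) = 0 := by
      rw [CharP.cast_eq_zero, orderOf_eq_zero_iff']
      intro n hn
      rw [zero_pow (by omega)]
      exact zero_ne_one
    omega
  have hirr := Pool.Agent.P8H53.ZE.pri_proof p l hp hl hpl hpr
  refine ⟨fun hr => ?_, ?_, ?_⟩
  · have hG : Good E M p l := ⟨hl, hl2, hpl, hirr, hb, hr⟩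
    refine ⟨fun a ha v hv x =>
      s_triv p l hp hl hpl hirr E M hb hr a ha (Pool.Agent.P8H83.ZE.vec v hv) x, ?_, ?_, ?_⟩
    · intro Γ _ φ α hα
      refine ⟨fun v hv x => Pool.Agent.P8H83.ZE.group_triv s_triv hG φ hα
        (Pool.Agent.P8H83.ZE.vec v hv) x, fun hφ hNS =>
        Pool.Agent.P8H83.ZE.group_finite s_triv hG φ (fun g hg => ?_) hα hNS⟩
      have h1 := hφ g.1.v g.1.hv (by
        rw [VR.vec_eq, ← eq_vec]
        exact hg)
      rw [eq_vec g]
      apply Subtype.ext
      exact WG.ext' h1 rfl
    · intro R _ ζ hζ hζ1 J _ _ ι Γ hΓ α hα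
      let φ : VR l p →* Γ := (VR.mono hζ ι).codRestrict Γ hΓ
      refine ⟨fun v hv x => Pool.Agent.P8H83.ZE.group_triv s_triv hG φ hα
        (Pool.Agent.P8H83.ZE.vec v hv) x, fun hNS =>
        Pool.Agent.P8H83.ZE.group_finite s_triv hG φ (fun g h1 => ?_) hα hNS⟩
      have h2 : Mono.mono hζ ι g.1 = 1 := congrArg Subtype.val h1
      rw [Mono.eq_dg g.2, ← map_one (Mono.mono hζ ι), ← Mono.dg_zero] at h2
      have h3 := Mono.mono_dg_inj hp hζ hζ1 ι h2
      apply Subtype.ext
      exact WG.ext' h3 g.2
    · intro R _ ζ hζ hζ1 N hlN α hα c i j hij x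
      · let ι : Fin l ↪ Fin N := Fin.castLEEmb hlN
        let φ : VR l p →* Matrix.SpecialLinearGroup (Fin N) R := VR.mono hζ ι
        have h1 := fun g x => Pool.Agent.P8H83.ZE.group_triv s_triv hG φ hα g x
        let i₀ : Fin l := ⟨0, by omega⟩
        have hne : finRotate l i₀ ≠ i₀ := by
          obtain ⟨r, rfl⟩ : ∃ r, l = r + 2 := ⟨l - 2, by omega⟩
          intro h
          have h2 : i₀ ∈ (finRotate (r + 2)).support := by
            rw [support_finRotate]; exact Finset.mem_univ _
          exact (Equiv.Perm.mem_support.1 h2) h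
        have hv : ∑ i, (gen l p i₀).1.v i = 0 := (gen l p i₀).1.hv
        have h3 : (gen l p i₀).1.v i₀ = 1 := by
          rw [gen_v, Pi.single_eq_same, Pi.single_eq_of_ne hne.symm, sub_zero]
        have h4 : ∃ j, (gen l p i₀).1.v i₀ ≠ (gen l p i₀).1.v j := by
          by_contra hcon
          push Not at hcon
          -- all coordinates are `1`, but the third one is `0`
          have h5 : finRotate l (finRotate l i₀) ≠ i₀ := by
            obtain ⟨r, rfl⟩ : ∃ r, l = r + 3 := ⟨l - 3, by omega⟩
            intro h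
            have e1 : finRotate (r + 3) i₀ = 1 := by
              rw [finRotate_apply]; exact zero_add _
            rw [e1, finRotate_apply] at h
            have := congrArg Fin.val h
            rw [Fin.val_add] at this
            simp only [i₀, Fin.val_one] at this
            rw [Nat.mod_eq_of_lt (by omega)] at this
            omega
          have h6 := hcon (finRotate l (finRotate l i₀))
          rw [h3, gen_v, Pi.single_eq_of_ne h5,
            Pi.single_eq_of_ne (fun h => hne ((finRotate l).injective h)), sub_zero] at h6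
          exact one_ne_zero h6
        obtain ⟨j₀, h5⟩ := h4
        refine el_mem' hp (by omega) hζ ι (actKer hα.action) (gen l p i₀).1.v hv h5 ?_ c i j hij x
        intro y
        have h6 := h1 (gen l p i₀) y
        exact h6
  · rintro rfl hm
    exact inR_two (hl.odd_of_ne_two (by omega)) hl2 hm
  · rintro rfl h3 hm
    exact inR_three h3 hl2 hm

end Pool.Agent.Results.MP_d483fb_an.FullRangePrimitiveRoot
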