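import Pool.Agent.P8H83.ZL.Mat
import Pool.Agent.P8H83.ZL.QI
import Pool.Agent.P8H83.ZL.GH
import Pool.Agent.P8H83.ZL.FR
import Pool.Agent.P8H83.ZL.GEN
import Pool.Agent.P8H83.ZL.KER
import Pool.Agent.P8H83.ZL.DIM
import Pool.Agent.P8H83.ZL.LEV
import Pool.Agent.P8H83.ZL.FLG
import Pool.Agent.P8H83.ZL.LAY
import Pool.Agent.P8H83.ZL.REP

/-!
# MP_d483fb_an: lattices with many elements of odd prime order

Let `p` be an odd prime, `WG N p = (ℤ/p)^N_0 ⋊ A_N` (vectors with coordinate sum zero and even
permutations of the coordinates), and `M` a closed connected smooth manifold of dimension `m`.  Let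
`K` be an infinite field of characteristic `p`, `b_i = dim H^i(M; K)`, `k = ⌊(N - 2) / 2⌋` and
`h(M) = ∑ (1 + 2 ⌊b_i / k⌋)`, the sum over the degrees `i` with `b_i ≠ 0` (`layerSum K M k`; this is
the number of these degrees if all `b_i` are smaller than `k`).  Let `δ = 1` if `p` divides `N` and
`δ = 0` otherwise.  We prove: if `m < 2 (N - δ - h(M))` then no group `Γ` which contains `WG N p` and
has the normal subgroup property of the lattices of higher rank has an infinite image in `Diff(M)`.
There is no condition on the Euler characteristic.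

Examples of `Γ`: `SL_n(ℤ[ζ_p])`, `n ≥ N`, or `SL_n(ℤ[ω])`, `p = 3` (a lattice in `SL_n(ℂ)`; for
`n = N` one has `r(G) = N - 1`, `min(d(G), v(G)) = 2 N - 2`); the special unitary groups over `ℤ[ω]`
of the hermitian forms `N ⟨1⟩ + f`, lattices in `SU(N, q)` if `f` is negative definite of rank `q`
(then `r(G) = 2 q - 1`, `min(d(G), v(G)) = 2 N + 2 q - 3` for `2 ≤ q < N`); `GL_N` over the Hurwitz
order.

The proof: `K[(ℤ/p)^r]` is free over the algebras `K[u_1, …, u_t] / (u_i^p)` of generic shifted
subgroups, a perfect complex over such an algebra with nonzero homology has at least `t + 1` trivial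
layers in its homology, and the representations of `WG N p` of dimension less than `k` in
characteristic `p` are trivial on the vectors, so that `H^i(M; K)` has few layers.
-/

set_option autoImplicit false

namespace Pool.Agent.Results.MP_d483fb_an.MonomialTorsion

open scoped Manifold ContDiff
open Pool.Agent.H185.ZM Pool.Agent.P8H83.ZL Module

section defs

variable (E : Type) [NormedAddCommGroup E] [NormedSpace ℝ E] [FiniteDimensional ℝ E]
  (M : Type) [TopologicalSpace M] [ChartedSpace E M]

/-- Finite groups `P` with a normal `p`-subgroup `D` such that all representations over `K` of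
dimension less than `k` are trivial on `D`: if `e : (ℤ/p)^r → D` and `m + 2 h < 2 (r + 1)`,
`h = layerSum K M k`, then for every smooth action of `P` on `M` an element `e g`, `g ≠ 1`, acts
trivially. -/
def FiniteGroups (p : ℕ) (K : Type) [Field K] : Prop :=
  ∀ (P : Type) [Group P] [Finite P] (D : Subgroup P) [D.Normal], IsPGroup p D → ∀ k : ℕ, 0 < k →
    SmallTriv K P D k → ∀ (r : ℕ) (e : EA p r →* P), (∀ g, e g ∈ D) →
    ∀ (a : P → M → M), SmoothAction E a → finrank ℝ E + 2 * layerSum K M k < 2 * (r + 1) →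
      ∃ g : EA p r, g ≠ 1 ∧ ∀ x, a (e g) x = x

/-- Groups `Γ` with a homomorphism `φ` from `WG N p`: every homomorphism `α : Γ → Diff(M)` is
trivial on `φ (v)` for a vector `v` which is not constant, and `α` has finite image if `φ` is
injective on the vectors and every normal subgroup of `Γ` is central or of finite index. -/
def Groups (N p : ℕ) : Prop :=
  ∀ (Γ : Type) [Group Γ] (φ : WG N p →* Γ) (α : Γ → (M ≃ₘ^∞⟮𝓘(ℝ, E), 𝓘(ℝ, E)⟯ M)), IsHom α →
    (∃ (v : Fin N → ZMod p) (hv : ∑ i, v i = 0), (∃ i j, v i ≠ v j) ∧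
      ∀ x, α (φ (Mono.dg v hv)) x = x) ∧
    ((∀ g ∈ WG.D N p, φ g = 1 → g = 1) → NormalSubgroupProperty Γ → (Set.range α).Finite)

/-- Groups `Γ` of matrices over a commutative ring `R` with an element `ζ ≠ 1`, `ζ ^ p = 1`, which
contain the monomial matrices given by the elements of `WG N p` on `N` of the coordinates; and the
elementary matrices with entries in `(1 - ζ) R` for `SL_N(R)`. -/
def MatrixGroups (N p : ℕ) [NeZero p] : Prop :=
  ∀ (R : Type) [CommRing R] (ζ : R) (hζ : ζ ^ p = 1), ζ ≠ 1 →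
    (∀ (J : Type) [Fintype J] [DecidableEq J] (ι : Fin N ↪ J)
      (Γ : Subgroup (Matrix.SpecialLinearGroup J R)) (hΓ : ∀ g, Mono.mono hζ ι g ∈ Γ)
      (α : Γ → (M ≃ₘ^∞⟮𝓘(ℝ, E), 𝓘(ℝ, E)⟯ M)), IsHom α →
      (∃ (v : Fin N → ZMod p) (hv : ∑ i, v i = 0), (∃ i j, v i ≠ v j) ∧
        ∀ x, α ⟨Mono.mono hζ ι (Mono.dg v hv), hΓ _⟩ x = x) ∧
      (NormalSubgroupProperty Γ → (Set.range α).Finite)) ∧
    (∀ α : Matrix.SpecialLinearGroup (Fin N) R → (M ≃ₘ^∞⟮𝓘(ℝ, E), 𝓘(ℝ, E)⟯ M), IsHom α →
      ∀ (c : R) (k l : Fin N) (hkl : k ≠ l) (x : M), α (el hkl ((1 - ζ) * c)) x = x)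

end defs

variable {E : Type} [NormedAddCommGroup E] [NormedSpace ℝ E] [FiniteDimensional ℝ E]
  {M : Type} [TopologicalSpace M] [ChartedSpace E M] [IsManifold 𝓘(ℝ, E) ∞ M]

theorem s_main : S_MAIN :=
  main_proof (a_proof (gh_proof qi_proof) (fr_proof qi_proof)) gen_proof ker_proof dim_proof
    lev_proof flg_proof lay_proof

theorem s_wg : S_WG := wg_proof s_main rep_proof

/-- **Groups with many elements of odd prime order acting on closed manifolds.**  Let `M` be a
closed connected smooth manifold of dimension `m`, `p` an odd prime and `K` an infinite field of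
characteristic `p`.
(1) holds for finite groups, without condition; if `N ≥ 4` and `m + 2 h(M) + 2 δ < 2 N` then
(2) holds for all groups with a homomorphism from `(ℤ/p)^N_0 ⋊ A_N` and (3) for matrix groups. -/
theorem result [CompactSpace M] [T2Space M] [ConnectedSpace M] (p : ℕ) [Fact p.Prime] (hp2 : p ≠ 2)
    (K : Type) [Field K] [CharP K p] [Infinite K] :
    FiniteGroups E M p K ∧
    ∀ N : ℕ, 4 ≤ N → InRange K M N p (finrank ℝ E) → Groups E M N p ∧ MatrixGroups E M N p := by
  have hp : p.Prime := Fact.out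
  refine ⟨fun P _ _ D _ hD k hk hs r e he a ha hlt =>
    s_main p hp hp2 K E M P D hD k hk hs r e he a ha hlt, fun N hN hr => ⟨?_, ?_⟩⟩
  · intro Γ _ φ α hα
    exact ⟨group_triv s_wg hp hp2 hN hr φ hα, fun hφ hNS =>
      group_finite s_wg hp hp2 hN hr φ hφ hα hNS⟩
  · intro R _ ζ hζ hζ1
    refine ⟨fun J _ _ ι Γ hΓ α hα => ?_, fun α hα c k l hkl x => ?_⟩
    · let φ : WG N p →* Γ := (Mono.mono hζ ι).codRestrict Γ hΓ
      refine ⟨group_triv s_wg hp hp2 hN hr φ hα, fun hNS =>
        group_finite s_wg hp hp2 hN hr φ (fun g hg h1 => ?_) hα hNS⟩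
      rw [Mono.eq_dg hg]
      have h2 : Mono.mono hζ ι g = 1 := congrArg Subtype.val h1
      rw [Mono.eq_dg hg, ← map_one (Mono.mono hζ ι), ← Mono.dg_zero] at h2
      have h3 := Mono.mono_dg_inj hp hζ hζ1 ι h2
      exact WG.ext' h3 rfl
    · obtain ⟨v, hv, ⟨i, j, hij⟩, hx⟩ := group_triv s_wg hp hp2 hN hr
        (Mono.mono hζ (Function.Embedding.refl (Fin N))) hα
      exact el_mem hp (by omega) hζ (actKer hα.action) v hv hij hx c k l hkl x

end Pool.Agent.Results.MP_d483fb_an.MonomialTorsion
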